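import Mathlib
import Pool.Agent.P.MP_086137_an.Defs
import Pool.Agent.P.MP_086137_an.NonUnital

set_option autoImplicit false

namespace Pool.Agent.Results.MP_086137_an.NonUnital

open Pool.Agent.P.MP_086137_an

theorem result (A : Type) [NonUnitalNormedRing A] [NormedSpace ℂ A] [IsScalarTower ℂ A A]
    [SMulCommClass ℂ A A] [CompleteSpace A] (h : BddApproxContractible A)
    (J : Submodule ℂ A) (hJ : ∀ a x : A, x ∈ J → a * x ∈ J ∧ x * a ∈ J)
    (hc : IsClosed (J : Set A)) (hf : FiniteDimensional ℂ (A ⧸ J)) :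
    HasBAI (J : Set A) :=
  main_nonunital (fun X _ _ _ L R hL hR hLR D hD => h X (fun a x => L a x) (fun a x => R a x) D
    L.isBoundedBilinearMap R.isBoundedBilinearMap D.isBoundedLinearMap
    ⟨fun a b x => congrArg (fun T : X →L[ℂ] X => T x) (hL a b),
      fun a b x => congrArg (fun T : X →L[ℂ] X => T x) (hR a b),
      fun a b x => congrArg (fun T : X →L[ℂ] X => T x) (hLR a b)⟩ hD) J hJ hc hf

end Pool.Agent.Results.MP_086137_an.NonUnital
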