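import Pool.Agent.P.MP_086137_an.ThreeD

set_option autoImplicit false

namespace Pool.Agent.Results.MP_086137_an.ThreeSpace

open Pool.Agent.P.MP_086137_an

theorem result (J A B : Type)
    [NonUnitalNormedRing J] [NormedSpace ℂ J] [IsScalarTower ℂ J J] [SMulCommClass ℂ J J]
    [CompleteSpace J]
    [NonUnitalNormedRing A] [NormedSpace ℂ A] [IsScalarTower ℂ A A] [SMulCommClass ℂ A A]
    [CompleteSpace A]
    [NonUnitalNormedRing B] [NormedSpace ℂ B] [IsScalarTower ℂ B B] [SMulCommClass ℂ B B]
    [FiniteDimensional ℂ B]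
    (ι : J →ₙₐ[ℂ] A) (hι : Isometry ι) (q : A →ₙₐ[ℂ] B) (hc : Continuous q)
    (hs : Function.Surjective q) (hJ : Function.Exact ι q) :
    BddApproxContractible A ↔ BddApproxContractible J ∧ BddApproxContractible B := by
  simp only [hyp_iff]
  exact three_space ι hι q hc hs hJ

end Pool.Agent.Results.MP_086137_an.ThreeSpace
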